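import Mathlib

namespace Pool.Agent.Results.MP_9ad7dc_al.Gen

open Polynomial Module

/-- the primitive idempotent of X for the i-th eigenvalue -/
noncomputable def idem {K R : Type} [Field K] [Ring R] [Algebra K R] {d : ℕ} (X : R)
    (θ : Fin (d + 1) → K) (i : Fin (d + 1)) : R :=
  aeval X (Lagrange.basis Finset.univ θ i)

/-- irreducible tridiagonal shape of Y with respect to the idempotents E -/
def Tri {R : Type} [Ring R] {d : ℕ} (E : Fin (d + 1) → R) (Y : R) : Prop :=
  ∀ i j : Fin (d + 1), ((i.val + 1 < j.val ∨ j.val + 1 < i.val) → E i * Y * E j = 0) ∧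
    ((i.val + 1 = j.val ∨ j.val + 1 = i.val) → E i * Y * E j ≠ 0)

variable {K V : Type} [Field K] [AddCommGroup V] [Module K V] {d : ℕ}

lemma bas [FiniteDimensional K V] (hV : finrank K V = d + 1) (A : End K V) (θ : Fin (d + 1) → K)
    (hi : Function.Injective θ) (hs : ∀ i, θ i ∈ spectrum K A) :
    ∃ u : Basis (Fin (d + 1)) K V, (∀ i, A (u i) = θ i • u i) ∧
      ∀ i v, idem A θ i v = u.repr v i • u i := by
  choose x hx using fun i => (End.HasEigenvalue.of_mem_spectrum (hs i)).exists_hasEigenvector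
  let u := basisOfLinearIndependentOfCardEqFinrank
    (End.eigenvectors_linearIndependent' A θ hi x hx) (by simp [hV])
  have hu : ∀ i, A (u i) = θ i • u i := fun i => by simpa [u] using (hx i).apply_eq_smul
  refine ⟨u, hu, fun i v => ?_⟩
  have : idem A θ i = (u.coord i).smulRight (u i) := u.ext fun j => by
    rw [idem, End.aeval_apply_of_mem_apply_eq_smul (hu j)]
    by_cases h : i = j
    · subst h; simp [Lagrange.eval_basis_self hi.injOn]
    · simp [Lagrange.eval_basis_of_ne h, Finsupp.single_apply, Ne.symm h]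
  simp [this]

lemma tri {E : Fin (d + 1) → End K V} {Y : End K V} (w : Basis (Fin (d + 1)) K V)
    (hE : ∀ i v, E i v = w.repr v i • w i) (i j : Fin (d + 1)) :
    E i * Y * E j = 0 ↔ w.repr (Y (w j)) i = 0 := by
  constructor
  · intro h
    simpa [hE, w.ne_zero] using LinearMap.congr_fun h (w j)
  · intro h
    ext v
    simp [hE, h]

lemma mem (w : Basis (Fin (d + 1)) K V) (W : Submodule K V) (v : V)
    (h : ∀ i, w.repr v i ≠ 0 → w i ∈ W) : v ∈ W := by
  rw [← w.sum_repr v]
  refine sum_mem fun i _ => ?_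
  by_cases e : w.repr v i = 0
  · simp [e]
  · exact W.smul_mem _ (h i e)

lemma cyc (w : Basis (Fin (d + 1)) K V) (Y : End K V)
    (h0 : ∀ i j : Fin (d + 1), j.val + 1 < i.val → w.repr (Y (w j)) i = 0)
    (h1 : ∀ i j : Fin (d + 1), j.val + 1 = i.val → w.repr (Y (w j)) i ≠ 0)
    (W : Submodule K V) (a : w 0 ∈ W) (b : ∀ v ∈ W, Y v ∈ W) (v : V) : v ∈ W := by
  have : ∀ n, ∀ i : Fin (d + 1), i.val ≤ n → w i ∈ W := by
    intro n
    induction n with
    | zero => intro i hi; rwa [show i = 0 from Fin.ext (by simpa using hi)]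
    | succ n ih =>
      intro i hi
      rcases hi.lt_or_eq with hi | hi
      · exact ih i (by omega)
      let j : Fin (d + 1) := ⟨n, by omega⟩
      have h2 : Y (w j) - w.repr (Y (w j)) i • w i ∈ W := mem w W _ fun k hk => by
        refine ih k ?_
        by_contra hn
        by_cases e : i = k
        · simp [e] at hk
        · have : k.val ≠ i.val := fun h => e (Fin.ext h.symm)
          simp [h0 k j (by simp [j]; omega), e] at hk
      have h3 := sub_mem (b _ (ih j le_rfl)) h2
      rw [sub_sub_cancel] at h3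
      exact (W.smul_mem_iff (h1 i j hi.symm)).mp h3
  exact mem w W v fun i _ => this _ i le_rfl

lemma nz (u : Basis (Fin (d + 1)) K V) (A : End K V) (θ : Fin (d + 1) → K)
    (hu : ∀ i, A (u i) = θ i • u i) (x : V)
    (h : ∀ W : Submodule K V, x ∈ W → (∀ v ∈ W, A v ∈ W) → ∀ v, v ∈ W) (i) : u.repr x i ≠ 0 := by
  intro e
  have : (u.coord i) ∘ₗ A = θ i • u.coord i := u.ext fun j => by
    by_cases h : j = i <;> simp [hu, h]
  have := h (LinearMap.ker (u.coord i)) (by simpa using e) (fun v hv => by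
    have := LinearMap.congr_fun this v
    simp only [LinearMap.mem_ker, LinearMap.comp_apply, LinearMap.smul_apply] at *
    rw [this, hv, smul_zero]) (u i)
  simp at this

lemma core [FiniteDimensional K V] (hV : finrank K V = d + 1) (A S : End K V)
    (θ φ : Fin (d + 1) → K) (hi : Function.Injective θ) (hs : ∀ i, θ i ∈ spectrum K A)
    (hi' : Function.Injective φ) (hs' : ∀ i, φ i ∈ spectrum K S) (t1 : Tri (idem A θ) S)
    (t2 : Tri (idem S φ) A) (r : Fin (d + 1)) (W : Submodule K V)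
    (a : ∃ v, idem S φ 0 v ≠ 0 ∧ idem S φ 0 v ∈ W) (b : ∀ j ≤ r, ∀ v ∈ W, idem S φ j v ∈ W)
    (c : ∀ i ≥ r, ∀ v ∈ W, idem A θ i v ∈ W) (v : V) : v ∈ W := by
  obtain ⟨u, hu, hE⟩ := bas hV A θ hi hs
  obtain ⟨w, hw, hF⟩ := bas hV S φ hi' hs'
  have a0 : ∀ i j : Fin (d + 1), j.val + 1 < i.val → w.repr (A (w j)) i = 0 :=
    fun i j h => (tri w hF i j).1 ((t2 i j).1 (Or.inr h))
  have c1 := cyc w A a0 fun i j h => (tri w hF i j).not.1 ((t2 i j).2 (Or.inr h))
  have c2 := cyc (u.reindex Fin.revPerm) S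
    (fun i j h => by
      simpa using (tri u hE i.rev j.rev).1 ((t1 _ _).1 (Or.inl (by simp; omega))))
    (fun i j h => by
      simpa using (tri u hE i.rev j.rev).not.1 ((t1 _ _).2 (Or.inl (by simp; omega))))
  have n1 := nz u A θ hu _ c1
  have n2 := nz w S φ hw _ c2
  obtain ⟨x, hx, hx'⟩ := a
  rw [hF] at hx hx'
  have w0 : w 0 ∈ W := (W.smul_mem_iff (left_ne_zero_of_smul hx)).mp hx'
  have uW : ∀ i ≥ r, u i ∈ W := fun i hi => (W.smul_mem_iff (n1 i)).mp (hE i _ ▸ c i hi _ w0)
  have wW : ∀ j ≤ r, w j ∈ W := fun j hj => (W.smul_mem_iff (n2 j)).mp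
    (hF j _ ▸ b j hj _ (by simpa using uW _ (Fin.le_last r)))
  have pw : ∀ k : ℕ, ∀ i : Fin (d + 1), k < i.val → w.repr ((A ^ k) (w 0)) i = 0 := by
    intro k
    induction k with
    | zero =>
      intro i hi
      have : (0 : Fin (d + 1)) ≠ i := by rintro rfl; simp at hi
      simp [this]
    | succ k ih =>
      intro i hi
      rw [pow_succ', End.mul_apply, ← w.sum_repr ((A ^ k) (w 0))]
      simp only [map_sum, map_smul, Finsupp.coe_finset_sum, Finset.sum_apply, Finsupp.smul_apply]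
      refine Finset.sum_eq_zero fun j _ => ?_
      by_cases h : k < j.val
      · simp [ih j h]
      · simp [a0 i j (by omega)]
  let p := Lagrange.interpolate (Finset.Iio r) θ fun i => u.repr v i / u.repr (w 0) i
  have hp : p.natDegree ≤ r.val := by
    have : p.degree < _ := Lagrange.degree_interpolate_lt _ hi.injOn
    exact natDegree_le_of_degree_le (by simpa using this.le)
  have h1 : aeval A p (w 0) ∈ W := by
    rw [aeval_eq_sum_range, LinearMap.sum_apply]
    refine sum_mem fun k hk => W.smul_mem _ (mem w W _ fun i hi => wW i ?_)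
    have := Finset.mem_range.mp hk
    by_contra h
    exact hi (pw k i (by have : r.val < i.val := not_le.mp h; omega))
  have h2 : v - aeval A p (w 0) ∈ W := mem u W _ fun i hi' => uW i (by
    by_contra h
    apply hi'
    have e : (u.coord i) ∘ₗ aeval A p = p.eval (θ i) • u.coord i := u.ext fun j => by
      rw [LinearMap.comp_apply, End.aeval_apply_of_mem_apply_eq_smul (hu j)]
      by_cases h : j = i <;> simp [h]
    have e2 := LinearMap.congr_fun e (w 0)
    rw [Lagrange.eval_interpolate_at_node _ hi.injOn (Finset.mem_Iio.mpr (not_le.mp h))] at e2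
    simp only [LinearMap.comp_apply, Basis.coord_apply, LinearMap.smul_apply, smul_eq_mul,
      div_mul_cancel₀ _ (n1 i)] at e2
    simp [e2])
  simpa using add_mem h2 h1

lemma map_idem {R T : Type} [Ring R] [Ring T] [Algebra K R] [Algebra K T] (e : R ≃ₐ[K] T) (X : R)
    (θ : Fin (d + 1) → K) (i) : idem (e X) θ i = e (idem X θ i) := by
  rw [idem, aeval_algEquiv]; rfl

lemma Tri.map {R T : Type} [Ring R] [Ring T] [Algebra K R] [Algebra K T] (e : R ≃ₐ[K] T) {X Y : R}
    {θ : Fin (d + 1) → K} (h : Tri (idem X θ) Y) : Tri (idem (e X) θ) (e Y) := fun i j => by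
  simpa only [map_idem, ← map_mul, ne_eq, EmbeddingLike.map_eq_zero_iff] using h i j

lemma op_idem {R : Type} [Ring R] [Algebra K R] (X : R) (θ : Fin (d + 1) → K) (i) :
    idem (MulOpposite.op X) θ i = MulOpposite.op (idem X θ i) := by
  unfold idem
  generalize Lagrange.basis Finset.univ θ i = p
  induction p using Polynomial.induction_on' with
  | add p q a b => simp [a, b]
  | monomial n a => simp [aeval_monomial, Algebra.commutes]

lemma core2 {R : Type} [Ring R] [Algebra K R] (e : R ≃ₐ[K] End K (Fin (d + 1) → K)) (A S : R)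
    (θ φ : Fin (d + 1) → K) (hi : Function.Injective θ) (hs : ∀ i, θ i ∈ spectrum K A)
    (hi' : Function.Injective φ) (hs' : ∀ i, φ i ∈ spectrum K S) (t1 : Tri (idem A θ) S)
    (t2 : Tri (idem S φ) A) (r : Fin (d + 1)) (B : Subalgebra K R)
    (b : ∀ j ≤ r, idem S φ j ∈ B) (c : ∀ i ≥ r, idem A θ i ∈ B) (x) (hx : e (idem S φ 0) x ≠ 0)
    (v) : ∃ b ∈ B, e b (e (idem S φ 0) x) = v :=
  core (by simp) (e A) (e S) θ φ hi (by simpa using hs) hi' (by simpa using hs') (t1.map e)
    (t2.map e) r (B.toSubmodule.map (LinearMap.applyₗ (e (idem S φ 0) x) ∘ₗ e.toLinearMap))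
    ⟨x, by rwa [map_idem], 1, B.one_mem, by simp [map_idem]⟩
    (by rintro j hj _ ⟨y, hy, rfl⟩; exact ⟨_, B.mul_mem (b j hj) hy, by simp [map_idem]⟩)
    (by rintro j hj _ ⟨y, hy, rfl⟩; exact ⟨_, B.mul_mem (c j hj) hy, by simp [map_idem]⟩) v

open Matrix in
theorem result (K R : Type) [Field K] [Ring R] [Algebra K R] (d : ℕ)
    (e : R ≃ₐ[K] Matrix (Fin (d + 1)) (Fin (d + 1)) K) (A S : R) (θ φ : Fin (d + 1) → K)
    (hθ : Function.Injective θ) (hA : ∀ i, θ i ∈ spectrum K A)
    (hφ : Function.Injective φ) (hS : ∀ i, φ i ∈ spectrum K S)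
    (t1 : Tri (idem A θ) S) (t2 : Tri (idem S φ) A) (r : Fin (d + 1)) :
    Algebra.adjoin K (idem S φ '' {j | j ≤ r} ∪ idem A θ '' {i | r ≤ i}) = ⊤ := by
  set B := Algebra.adjoin K (idem S φ '' {j | j ≤ r} ∪ idem A θ '' {i | r ≤ i})
  have b : ∀ j ≤ r, idem S φ j ∈ B := fun j hj => Algebra.subset_adjoin (Or.inl ⟨j, hj, rfl⟩)
  have c : ∀ i ≥ r, idem A θ i ∈ B := fun j hj => Algebra.subset_adjoin (Or.inr ⟨j, hj, rfl⟩)
  let e1 := e.trans toLinAlgEquiv'
  let e2 : Rᵐᵒᵖ ≃ₐ[K] End K (Fin (d + 1) → K) :=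
    (AlgEquiv.op e).trans ((transposeAlgEquiv (Fin (d + 1)) K K).symm.trans toLinAlgEquiv')
  have e2a : ∀ x v, e2 (MulOpposite.op x) v = v ᵥ* e x := fun x v => by
    show (e x)ᵀ *ᵥ v = _
    exact mulVec_transpose _ _
  have sp : ∀ (X : R) (a : K), a ∈ spectrum K X → a ∈ spectrum K (MulOpposite.op X) := by
    intro X a h h'
    exact h (by simpa [resolventSet] using (isUnit_unop.mpr h'))
  have tr : ∀ {X Y : R} {θ : Fin (d + 1) → K}, Tri (idem X θ) Y →
      Tri (idem (MulOpposite.op X) θ) (MulOpposite.op Y) := fun h i j => by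
    simpa only [op_idem, ← MulOpposite.op_mul, ← mul_assoc, ne_eq, MulOpposite.op_eq_zero_iff,
      or_comm] using h j i
  obtain ⟨w, -, hF⟩ := bas (by simp) (e1 S) φ hφ (by simpa using hS)
  let f : Fin (d + 1) → K := fun j => w.repr (Pi.single j 1) 0
  have hE : e (idem S φ 0) = vecMulVec (w 0) f := by
    ext i j
    have := congrFun (hF 0 (Pi.single j 1)) i
    rw [map_idem] at this
    simpa [e1, vecMulVec_apply, f, mul_comm] using this
  have hE0 : e (idem S φ 0) ≠ 0 := by
    intro h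
    have := hF 0 (w 0)
    rw [map_idem] at this
    exact w.ne_zero 0 (by simpa [e1, h] using this.symm)
  obtain ⟨i, j, hij⟩ : ∃ i j, e (idem S φ 0) i j ≠ 0 := by
    by_contra h
    push Not at h
    exact hE0 (by ext i j; exact h i j)
  have k1 := core2 e1 A S θ φ hθ hA hφ hS t1 t2 r B b c (Pi.single j 1)
    (fun h => hij (by simpa [e1] using congrFun h i))
  have k2 := core2 e2 _ _ θ φ hθ (fun i => sp _ _ (hA i)) hφ (fun i => sp _ _ (hS i)) (tr t1)
    (tr t2) r B.op (fun j hj => by simpa [op_idem] using b j hj)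
    (fun j hj => by simpa [op_idem] using c j hj) (Pi.single i 1)
    (fun h => hij (by simpa [op_idem, e2a] using congrFun h j))
  have key : ∀ x y, e.symm (vecMulVec x y) ∈ B := by
    intro x y
    obtain ⟨p, hp, rfl⟩ := k1 x
    obtain ⟨q, hq, rfl⟩ := k2 y
    have := B.smul_mem (mul_mem (mul_mem hp (b 0 (Fin.zero_le _))) (show q.unop ∈ B from hq))
      (e (idem S φ 0) i j)
    convert this using 1
    apply e.injective
    rw [← q.op_unop, op_idem, e2a, e2a]
    simp [e1, hE, mul_vecMulVec, vecMulVec_mul, vecMulVec_apply]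
    have a1 : (vecMulVec (w 0) f).col j = f j • w 0 := by
      ext; simp [vecMulVec_apply, mul_comm]
    have a2 : (vecMulVec (w 0) f).row i = w 0 i • f := by
      ext; simp [vecMulVec_apply]
    rw [a1, a2, mulVec_smul, smul_vecMul]
    ext
    simp only [vecMulVec_apply, Pi.smul_apply, Matrix.smul_apply, smul_eq_mul]
    ring
  rw [eq_top_iff]
  intro x _
  rw [← e.symm_apply_apply x, matrix_eq_sum_single (e x)]
  simp only [map_sum]
  refine sum_mem fun i _ => sum_mem fun j _ => ?_
  convert key (Pi.single i (e x i j)) (Pi.single j 1) using 2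
  ext a b
  simp [vecMulVec_apply, single, Pi.single_apply, eq_comm, ite_and]
  split_ifs <;> rfl

end Pool.Agent.Results.MP_9ad7dc_al.Gen
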